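import Mathlib

/-!
Every positive binary quartic form is, after an invertible linear change of variables, of the
form `A (x⁴ + y⁴) + C x² y²`.
-/

namespace Pool.Agent.KS6_18.Quart

/-- The binary quartic form with coefficients `a0, …, a4`. -/
def bq (a0 a1 a2 a3 a4 x y : ℝ) : ℝ :=
  a0 * x ^ 4 + a1 * (x ^ 3 * y) + a2 * (x ^ 2 * y ^ 2) + a3 * (x * y ^ 3) + a4 * y ^ 4

/-- Coefficients after a rotation. -/
def r1 (a0 a1 a2 a3 a4 c s : ℝ) : ℝ :=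
  a0 * (-4 * c ^ 3 * s) + a1 * (c ^ 4 - 3 * c ^ 2 * s ^ 2) + a2 * (2 * c ^ 3 * s - 2 * c * s ^ 3) +
    a3 * (3 * c ^ 2 * s ^ 2 - s ^ 4) + a4 * (4 * s ^ 3 * c)

def r2 (a0 a1 a2 a3 a4 c s : ℝ) : ℝ :=
  a0 * (6 * c ^ 2 * s ^ 2) + a1 * (3 * c * s ^ 3 - 3 * c ^ 3 * s) +
    a2 * (c ^ 4 - 4 * c ^ 2 * s ^ 2 + s ^ 4) +
    a3 * (3 * c ^ 3 * s - 3 * c * s ^ 3) + a4 * (6 * s ^ 2 * c ^ 2)

def r3 (a0 a1 a2 a3 a4 c s : ℝ) : ℝ :=
  a0 * (-4 * c * s ^ 3) + a1 * (3 * c ^ 2 * s ^ 2 - s ^ 4) + a2 * (2 * c * s ^ 3 - 2 * c ^ 3 * s) +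
    a3 * (c ^ 4 - 3 * c ^ 2 * s ^ 2) + a4 * (4 * s * c ^ 3)

theorem bq_rot (a0 a1 a2 a3 a4 c s x y : ℝ) :
    bq a0 a1 a2 a3 a4 (c * x - s * y) (s * x + c * y) =
      bq (bq a0 a1 a2 a3 a4 c s) (r1 a0 a1 a2 a3 a4 c s) (r2 a0 a1 a2 a3 a4 c s)
        (r3 a0 a1 a2 a3 a4 c s) (bq a0 a1 a2 a3 a4 (-s) c) x y := by
  unfold bq r1 r2 r3
  ring

/-- A continuous function of the angle changing sign has a zero. -/
theorem exists_angle (G : ℝ → ℝ) (hG : Continuous G) (φ : ℝ) (h : G φ = -G 0) :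
    ∃ t, G t = 0 := by
  rcases le_total (G 0) 0 with h0 | h0
  · exact mem_range_of_exists_le_of_exists_ge hG ⟨0, h0⟩ ⟨φ, by rw [h]; linarith⟩
  · exact mem_range_of_exists_le_of_exists_ge hG ⟨φ, by rw [h]; linarith⟩ ⟨0, h0⟩

theorem step1 (a0 a1 a2 a3 a4 : ℝ)
    (hpos : ∀ x y : ℝ, x ^ 2 + y ^ 2 = 1 → 0 < bq a0 a1 a2 a3 a4 x y) :
    ∃ c s m A B C : ℝ, c ^ 2 + s ^ 2 = 1 ∧ 0 < m ∧ ∀ x y : ℝ,
      bq a0 a1 a2 a3 a4 (c * (m * x) - s * y) (s * (m * x) + c * y) = bq A B C (-B) A x y := by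
  obtain ⟨t, ht⟩ := exists_angle
    (fun t => r1 a0 a1 a2 a3 a4 (Real.cos t) (Real.sin t) *
        √(bq a0 a1 a2 a3 a4 (-Real.sin t) (Real.cos t)) +
      r3 a0 a1 a2 a3 a4 (Real.cos t) (Real.sin t) *
        √(bq a0 a1 a2 a3 a4 (Real.cos t) (Real.sin t)))
    (by unfold r1 r3 bq; fun_prop) (Real.pi / 2)
    (by
      simp only [Real.cos_pi_div_two, Real.sin_pi_div_two, Real.cos_zero, Real.sin_zero]
      unfold r1 r3 bq
      norm_num)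
  obtain ⟨c, hc⟩ : ∃ c, c = Real.cos t := ⟨_, rfl⟩
  obtain ⟨s, hs⟩ : ∃ s, s = Real.sin t := ⟨_, rfl⟩
  have hcs : c ^ 2 + s ^ 2 = 1 := by rw [hc, hs]; exact Real.cos_sq_add_sin_sq t
  rw [← hc, ← hs] at ht
  obtain ⟨P0, hP0⟩ : ∃ P, P = bq a0 a1 a2 a3 a4 c s := ⟨_, rfl⟩
  obtain ⟨P4, hP4⟩ : ∃ P, P = bq a0 a1 a2 a3 a4 (-s) c := ⟨_, rfl⟩
  obtain ⟨P1, hP1⟩ : ∃ P, P = r1 a0 a1 a2 a3 a4 c s := ⟨_, rfl⟩
  obtain ⟨P2, hP2⟩ : ∃ P, P = r2 a0 a1 a2 a3 a4 c s := ⟨_, rfl⟩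
  obtain ⟨P3, hP3⟩ : ∃ P, P = r3 a0 a1 a2 a3 a4 c s := ⟨_, rfl⟩
  have p0 : 0 < P0 := by rw [hP0]; exact hpos _ _ hcs
  have p4 : 0 < P4 := by rw [hP4]; exact hpos _ _ (by rw [neg_sq]; linarith)
  rw [← hP0, ← hP4, ← hP1, ← hP3] at ht
  have s0 : 0 < √P0 := Real.sqrt_pos.mpr p0
  have s4 : 0 < √P4 := Real.sqrt_pos.mpr p4
  have q0 : √P0 ^ 2 = P0 := Real.sq_sqrt p0.le
  have q4 : √P4 ^ 2 = P4 := Real.sq_sqrt p4.le
  obtain ⟨m, hm⟩ : ∃ m, m = √(√P4 / √P0) := ⟨_, rfl⟩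
  have mpos : 0 < m := by rw [hm]; positivity
  have m2 : m ^ 2 = √P4 / √P0 := by rw [hm]; exact Real.sq_sqrt (by positivity)
  have m2' : m ^ 2 * √P0 = √P4 := by rw [m2]; field_simp
  have m4 : P0 * m ^ 4 = P4 := by
    calc P0 * m ^ 4 = (m ^ 2 * √P0) ^ 2 := by rw [mul_pow, q0]; ring
      _ = P4 := by rw [m2', q4]
  have m3 : P1 * m ^ 3 = -(P3 * m) := by
    have h1 : (P1 * m ^ 2 + P3) * √P0 = 0 := by
      calc (P1 * m ^ 2 + P3) * √P0 = P1 * (m ^ 2 * √P0) + P3 * √P0 := by ring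
        _ = 0 := by rw [m2', ht]
    have h2 : P1 * m ^ 2 + P3 = 0 := by
      rcases mul_eq_zero.mp h1 with h | h
      · exact h
      · exact absurd h s0.ne'
    linear_combination m * h2
  refine ⟨c, s, m, P4, P1 * m ^ 3, P2 * m ^ 2, hcs, mpos, fun x y => ?_⟩
  rw [bq_rot, ← hP0, ← hP1, ← hP2, ← hP3, ← hP4]
  unfold bq
  linear_combination x ^ 4 * m4 + x * y ^ 3 * m3

theorem step2 (A B C : ℝ) :
    ∃ c s A' C' : ℝ, c ^ 2 + s ^ 2 = 1 ∧ ∀ x y : ℝ,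
      bq A B C (-B) A (c * x - s * y) (s * x + c * y) = bq A' 0 C' 0 A' x y := by
  obtain ⟨t, ht⟩ := exists_angle
    (fun t => r1 A B C (-B) A (Real.cos t) (Real.sin t))
    (by unfold r1; fun_prop) (Real.pi / 4)
    (by
      simp only [Real.cos_pi_div_four, Real.sin_pi_div_four, Real.cos_zero, Real.sin_zero]
      unfold r1
      have h2 : √(2 : ℝ) ^ 2 = 2 := Real.sq_sqrt (by norm_num)
      have h4 : √(2 : ℝ) ^ 4 = 4 := by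
        calc √(2 : ℝ) ^ 4 = (√(2 : ℝ) ^ 2) ^ 2 := by ring
          _ = 4 := by rw [h2]; norm_num
      linear_combination (-(B) * 4 / 16) * h4)
  obtain ⟨c, hc⟩ : ∃ c, c = Real.cos t := ⟨_, rfl⟩
  obtain ⟨s, hs⟩ : ∃ s, s = Real.sin t := ⟨_, rfl⟩
  have hcs : c ^ 2 + s ^ 2 = 1 := by rw [hc, hs]; exact Real.cos_sq_add_sin_sq t
  rw [← hc, ← hs] at ht
  refine ⟨c, s, bq A B C (-B) A c s, r2 A B C (-B) A c s, hcs, fun x y => ?_⟩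
  have h3 : r3 A B C (-B) A c s = 0 := by
    have : r3 A B C (-B) A c s = -r1 A B C (-B) A c s := by unfold r1 r3; ring
    rw [this, ht, neg_zero]
  have h4 : bq A B C (-B) A (-s) c = bq A B C (-B) A c s := by unfold bq; ring
  rw [bq_rot, ht, h3, h4]

/-- The canonical form of a positive binary quartic form. -/
theorem bq_canonical (a0 a1 a2 a3 a4 : ℝ)
    (hpos : ∀ x y : ℝ, x ^ 2 + y ^ 2 = 1 → 0 < bq a0 a1 a2 a3 a4 x y) :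
    ∃ t11 t12 t21 t22 A C : ℝ, t11 * t22 - t12 * t21 ≠ 0 ∧ ∀ x y : ℝ,
      bq a0 a1 a2 a3 a4 (t11 * x + t12 * y) (t21 * x + t22 * y) =
        A * (x ^ 4 + y ^ 4) + C * (x ^ 2 * y ^ 2) := by
  obtain ⟨c, s, m, A, B, C, hcs, hm, h1⟩ := step1 a0 a1 a2 a3 a4 hpos
  obtain ⟨c', s', A', C', hcs', h2⟩ := step2 A B C
  refine ⟨c * m * c' - s * s', -(c * m * s') - s * c', s * m * c' + c * s',
    -(s * m * s') + c * c', A', C', ?_, fun x y => ?_⟩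
  · have : (c * m * c' - s * s') * (-(s * m * s') + c * c') -
        (-(c * m * s') - s * c') * (s * m * c' + c * s') = m := by
      linear_combination (m * (c' ^ 2 + s' ^ 2)) * hcs + m * hcs'
    rw [this]; exact hm.ne'
  · have e1 : (c * m * c' - s * s') * x + (-(c * m * s') - s * c') * y =
        c * (m * (c' * x - s' * y)) - s * (s' * x + c' * y) := by ring
    have e2 : (s * m * c' + c * s') * x + (-(s * m * s') + c * c') * y =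
        s * (m * (c' * x - s' * y)) + c * (s' * x + c' * y) := by ring
    rw [e1, e2, h1, h2]
    unfold bq
    ring

end Pool.Agent.KS6_18.Quart
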