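import Mathlib

/-!
Convex bodies, symmetry groups, completely symmetric sets and hyperplane projections:
definitions.
-/

open MeasureTheory Metric Module

namespace Pool.Agent.KS6_18.Quart

section Defs

variable {V : Type*} [NormedAddCommGroup V] [InnerProductSpace ℝ V]

/-- A convex body: a compact convex set with non-empty interior. -/
def IsConvexBody (K : Set V) : Prop :=
  IsCompact K ∧ Convex ℝ K ∧ (interior K).Nonempty

/-- The symmetry group of `A`: all (surjective) isometries `T` of `V` with `T(A) = A`. -/
def Sym (A : Set V) : Subgroup (V ≃ᵢ V) where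
  carrier := {T | T '' A = A}
  mul_mem' := by
    intro S T hS hT
    have hS' : S '' A = A := hS
    have hT' : T '' A = A := hT
    change (S * T) '' A = A
    have : ((S * T : V ≃ᵢ V) : V → V) = S ∘ T := rfl
    rw [this, Set.image_comp, hT', hS']
  one_mem' := by
    change (1 : V ≃ᵢ V) '' A = A
    have : ((1 : V ≃ᵢ V) : V → V) = id := rfl
    rw [this, Set.image_id]
  inv_mem' := by
    intro T hT
    have hT' : T '' A = A := hT
    change (T⁻¹ : V ≃ᵢ V) '' A = A
    conv_lhs => rw [← hT']
    rw [← Set.image_comp]
    have : ((T⁻¹ : V ≃ᵢ V) : V → V) ∘ T = id := by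
      funext x
      exact T.symm_apply_apply x
    rw [this, Set.image_id]

/-- An ellipsoid: the image of the closed unit ball under an invertible affine map. -/
def IsEllipsoid (E : Set V) : Prop :=
  ∃ T : V ≃ᵃ[ℝ] V, E = T '' closedBall (0 : V) 1

/-- A Euclidean ball, with an arbitrary centre and a positive radius. -/
def IsBall (E : Set V) : Prop :=
  ∃ (c : V) (r : ℝ), 0 < r ∧ E = closedBall c r

/-- A group `G` of isometries of `V` is complete if every ellipsoid in `V` whose symmetry
group contains `G` is a Euclidean ball. -/
def IsCompleteGroup (G : Subgroup (V ≃ᵢ V)) : Prop :=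
  ∀ E : Set V, IsEllipsoid E → G ≤ Sym E → IsBall E

/-- A subset of a finite-dimensional Euclidean space `V` (with its Borel sets and its
Lebesgue measure), of positive finite volume, is completely symmetric if its centroid is the
origin and its symmetry group is complete. -/
def CompletelySymmetric [FiniteDimensional ℝ V] (A : Set V) : Prop :=
  letI : MeasurableSpace V := borel V
  haveI : BorelSpace V := ⟨rfl⟩
  0 < (volume : Measure V) A ∧ (volume : Measure V) A < ⊤ ∧
    (⨍ x in A, x ∂(volume : Measure V)) = 0 ∧ IsCompleteGroup (Sym A)

/-- `B` is a translate of a completely symmetric set. -/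
def IsTranslateCS [FiniteDimensional ℝ V] (B : Set V) : Prop :=
  ∃ (A : Set V) (v : V), CompletelySymmetric A ∧ B = (fun x => x + v) '' A

/-- `B` is a linear image of a completely symmetric set. -/
def IsLinearImageCS [FiniteDimensional ℝ V] (B : Set V) : Prop :=
  ∃ (A : Set V) (T : V ≃ₗ[ℝ] V), CompletelySymmetric A ∧ B = T '' A

/-- The hyperplane orthogonal to `u`. -/
noncomputable abbrev Perp (u : V) : Submodule ℝ V := (Submodule.span ℝ {u})ᗮ

/-- The orthogonal projection of `K` onto the hyperplane orthogonal to `u`, as a subset of
that hyperplane. -/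
noncomputable def Proj [FiniteDimensional ℝ V] (u : V) (K : Set V) : Set (Perp u) :=
  (Perp u).orthogonalProjectionOnto '' K

end Defs

end Pool.Agent.KS6_18.Quart
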