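import Mathlib
import Pool.Agent.KS6_18.Quart.PS

/-!
A convex body in three-dimensional Euclidean space, not an ellipsoid, all of whose hyperplane
projections are linear images of completely symmetric (even 1-symmetric) sets.

The fourth power of the support function of the body is the quartic form
`|x|² (|x|² + x₃²)`.  Restricted to a plane this is a product of two positive definite
quadratic forms, and after a linear change of variables it becomes
`m (p⁴ + q⁴) + l p² q²`, which has all the symmetries of a square.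
-/

open MeasureTheory Metric Module

namespace Pool.Agent.KS6_18.Quart

section Defs

variable {V : Type*} [NormedAddCommGroup V] [InnerProductSpace ℝ V]

/-- The cube centred at the origin with edges of length two parallel to the vectors of the
orthonormal basis `b`. -/
def cube {n : ℕ} (b : OrthonormalBasis (Fin n) ℝ V) : Set V :=
  {x | ∀ i, |inner ℝ (b i) x| ≤ 1}

/-- `A` is 1-symmetric: its symmetry group contains the symmetry group of a cube centred at
the origin. -/
def IsOneSymmetric (A : Set V) : Prop :=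
  ∃ (n : ℕ) (b : OrthonormalBasis (Fin n) ℝ V), Pool.Agent.KS6_18.Quart.Sym (cube b) ≤
    Pool.Agent.KS6_18.Quart.Sym A

/-- `B` is the image under an invertible linear map of a set that is both completely symmetric
and 1-symmetric. -/
def IsLinearImageOneSymmetricCS [FiniteDimensional ℝ V] (B : Set V) : Prop :=
  ∃ (A : Set V) (T : V ≃ₗ[ℝ] V), CompletelySymmetric A ∧ IsOneSymmetric A ∧ B = T '' A

end Defs

section General

variable {V : Type*} [NormedAddCommGroup V] [InnerProductSpace ℝ V]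

theorem convexBody_image [FiniteDimensional ℝ V] (T : V ≃ₗ[ℝ] V) (A : Set V)
    (hA : IsConvexBody A) : IsConvexBody (T '' A) := by
  have hT : (T : V → V) = T.toContinuousLinearEquiv.toHomeomorph := rfl
  refine ⟨hA.1.image T.toContinuousLinearEquiv.continuous, ?_, ?_⟩
  · exact hA.2.1.linear_image T.toLinearMap
  · rw [hT, ← Homeomorph.image_interior]
    exact hA.2.2.image _

/-- The symmetry group of the square: an isometry preserving the square is a linear map sending
the vertices `b 0 + b 1` and `b 0 - b 1` to orthogonal vertices. -/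
theorem sym_square (b : OrthonormalBasis (Fin 2) ℝ V) (T : V ≃ᵢ V) 
    (hT : T ∈ Pool.Agent.KS6_18.Quart.Sym (cube b)) :
    ∃ v0 v1 w0 w1 : ℝ, (v0 = 1 ∨ v0 = -1) ∧ (v1 = 1 ∨ v1 = -1) ∧ (w0 = 1 ∨ w0 = -1) ∧
      (w1 = 1 ∨ w1 = -1) ∧ v0 * w0 + v1 * w1 = 0 ∧
      (∃ L : V ≃ₗᵢ[ℝ] V, (∀ x, T x = L x) ∧ L (b 0 + b 1) = v0 • b 0 + v1 • b 1 ∧
        L (b 0 - b 1) = w0 • b 0 + w1 • b 1) := by
  have hTC : T '' cube b = cube b := hT
  have hcube : ∀ p q : ℝ, p • b 0 + q • b 1 ∈ cube b ↔ |p| ≤ 1 ∧ |q| ≤ 1 := by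
    intro p q
    have h0 : inner ℝ (b 0) (p • b 0 + q • b 1) = p := by
      have := inner_comb b 1 0 p q
      simpa using this
    have h1 : inner ℝ (b 1) (p • b 0 + q • b 1) = q := by
      have := inner_comb b 0 1 p q
      simpa using this
    constructor
    · intro h
      have e0 := h 0
      have e1 := h 1
      rw [h0] at e0
      rw [h1] at e1
      exact ⟨e0, e1⟩
    · intro h i
      fin_cases i
      · change |inner ℝ (b 0) _| ≤ 1
        rw [h0]; exact h.1
      · change |inner ℝ (b 1) _| ≤ 1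
        rw [h1]; exact h.2
  -- `T` is affine
  let TA : V ≃ᵃⁱ[ℝ] V := T.toRealAffineIsometryEquiv
  have hTA : ∀ x, T x = TA x := fun x => by simp [TA]
  let L : V ≃ₗᵢ[ℝ] V := TA.linearIsometryEquiv
  have hTL : ∀ x, T x = L x + T 0 := by
    intro x
    have := TA.map_vadd 0 x
    simp only [vadd_eq_add, add_zero] at this
    rw [hTA, hTA, this]
  -- `T 0 = 0`
  have hsymm : ∀ x ∈ cube b, -x ∈ cube b := by
    intro x hx i
    rw [inner_neg_right, abs_neg]
    exact hx i
  have hstep : ∀ x ∈ cube b, x + (2 : ℝ) • T 0 ∈ cube b := by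
    intro x hx
    have h1 := hsymm x hx
    rw [← hTC] at h1
    obtain ⟨y, hy, hyx⟩ := h1
    have h2 : T (-y) ∈ cube b := by rw [← hTC]; exact ⟨-y, hsymm y hy, rfl⟩
    have h3 : T (-y) = x + (2 : ℝ) • T 0 := by
      rw [hTL] at hyx ⊢
      rw [map_neg]
      have : x = -(L y + T 0) := by rw [hyx, neg_neg]
      rw [this, two_smul]
      abel
    rwa [← h3]
  have hT0 : T 0 = 0 := by
    obtain ⟨p, q, hpq⟩ := exists_comb b (T 0)
    have hiter : ∀ n : ℕ, ((2 * n : ℝ)) • T 0 ∈ cube b := by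
      intro n
      induction n with
      | zero =>
        have := (hcube 0 0).mpr ⟨by simp, by simp⟩
        simpa using this
      | succ n ih =>
        have := hstep _ ih
        rw [← add_smul] at this
        convert this using 2
        push_cast
        ring
    have hp : ∀ n : ℕ, |2 * (n : ℝ) * p| ≤ 1 ∧ |2 * (n : ℝ) * q| ≤ 1 := by
      intro n
      have := hiter n
      rw [hpq, smul_add, smul_smul, smul_smul, hcube] at this
      exact this
    have hp0 : p = 0 := by
      by_contra hne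
      have hpos : 0 < |p| := abs_pos.mpr hne
      obtain ⟨n, hn⟩ := exists_nat_gt (|p|)⁻¹
      have h1 := (hp n).1
      rw [abs_mul, abs_mul, abs_two, Nat.abs_cast] at h1
      have h2 : 1 < (n : ℝ) * |p| := by
        rwa [inv_lt_iff_one_lt_mul₀ hpos] at hn
      nlinarith
    have hq0 : q = 0 := by
      by_contra hne
      have hpos : 0 < |q| := abs_pos.mpr hne
      obtain ⟨n, hn⟩ := exists_nat_gt (|q|)⁻¹
      have h1 := (hp n).2
      rw [abs_mul, abs_mul, abs_two, Nat.abs_cast] at h1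
      have h2 : 1 < (n : ℝ) * |q| := by
        rwa [inv_lt_iff_one_lt_mul₀ hpos] at hn
      nlinarith
    rw [hpq, hp0, hq0]; simp
  have hTL' : ∀ x, T x = L x := by intro x; rw [hTL, hT0, add_zero]
  have hvert : ∀ x ∈ cube b, ‖x‖ ^ 2 = 2 → ∃ p q : ℝ, (p = 1 ∨ p = -1) ∧ (q = 1 ∨ q = -1) ∧
      x = p • b 0 + q • b 1 := by
    intro x hx hn
    obtain ⟨p, q, hpq⟩ := exists_comb b x
    rw [hpq] at hx hn
    rw [norm_sq_comb] at hn
    obtain ⟨h1, h2⟩ := (hcube p q).mp hx
    have h1' : p ^ 2 ≤ 1 := by rw [← sq_abs]; nlinarith [abs_nonneg p]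
    have h2' : q ^ 2 ≤ 1 := by rw [← sq_abs]; nlinarith [abs_nonneg q]
    refine ⟨p, q, ?_, ?_, hpq⟩
    · have : (p - 1) * (p + 1) = 0 := by nlinarith
      rcases mul_eq_zero.mp this with h | h
      · left; linarith
      · right; linarith
    · have : (q - 1) * (q + 1) = 0 := by nlinarith
      rcases mul_eq_zero.mp this with h | h
      · left; linarith
      · right; linarith
  have e1 : b 0 + b 1 = (1 : ℝ) • b 0 + (1 : ℝ) • b 1 := by simp
  have e2 : b 0 - b 1 = (1 : ℝ) • b 0 + (-1 : ℝ) • b 1 := by simp [sub_eq_add_neg]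
  have m1 : L (b 0 + b 1) ∈ cube b := by
    rw [← hTL', ← hTC]
    refine ⟨_, ?_, rfl⟩
    rw [e1, hcube]; simp
  have m2 : L (b 0 - b 1) ∈ cube b := by
    rw [← hTL', ← hTC]
    refine ⟨_, ?_, rfl⟩
    rw [e2, hcube]; simp
  have n1 : ‖L (b 0 + b 1)‖ ^ 2 = 2 := by
    rw [L.norm_map, e1, norm_sq_comb]; norm_num
  have n2 : ‖L (b 0 - b 1)‖ ^ 2 = 2 := by
    rw [L.norm_map, e2, norm_sq_comb]; norm_num
  obtain ⟨v0, v1, hv0, hv1, hv⟩ := hvert _ m1 n1
  obtain ⟨w0, w1, hw0, hw1, hw⟩ := hvert _ m2 n2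
  refine ⟨v0, v1, w0, w1, hv0, hv1, hw0, hw1, ?_, L, hTL', hv, hw⟩
  have h3 : inner ℝ (L (b 0 + b 1)) (L (b 0 - b 1)) = (0 : ℝ) := by
    rw [L.inner_map_map, e1, e2, inner_comb]; norm_num
  rw [hv, hw, inner_comb] at h3
  exact h3

/-- A function of the form `F (p⁴ + q⁴) (p² q²)` is invariant under the symmetries of the
square. -/
theorem invariant_of_sym_square (b : OrthonormalBasis (Fin 2) ℝ V) (g : V → ℝ)
    (F : ℝ → ℝ → ℝ) (hg : ∀ p q : ℝ, g (p • b 0 + q • b 1) = F (p ^ 4 + q ^ 4) (p ^ 2 * q ^ 2))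
    (T : V ≃ᵢ V) (hT : T ∈ Pool.Agent.KS6_18.Quart.Sym (cube b)) :
    T '' Wulff g = Wulff g := by
  obtain ⟨v0, v1, w0, w1, hv0, hv1, hw0, hw1, h0, L, hL, hv, hw⟩ := sym_square b T hT
  have himg : T '' Wulff g = L '' Wulff g := by
    apply Set.image_congr
    intro x _
    exact hL x
  rw [himg]
  apply wulff_image_isometry
  intro x
  obtain ⟨p, q, rfl⟩ := exists_comb b x
  have hx : p • b 0 + q • b 1 = ((p + q) / 2) • (b 0 + b 1) + ((p - q) / 2) • (b 0 - b 1) := by
    module
  have hLx : L (p • b 0 + q • b 1) =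
      ((p + q) / 2 * v0 + (p - q) / 2 * w0) • b 0 +
        ((p + q) / 2 * v1 + (p - q) / 2 * w1) • b 1 := by
    rw [hx, map_add, map_smul, map_smul, hv, hw]
    module
  rw [hLx, hg, hg]
  rcases hv0 with rfl | rfl <;> rcases hv1 with rfl | rfl <;> rcases hw0 with rfl | rfl <;>
    rcases hw1 with rfl | rfl <;> first
      | (exfalso; norm_num at h0; done)
      | (congr 1 <;> ring)

end General

end Pool.Agent.KS6_18.Quart
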