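import Mathlib
import Pool.Agent.KS6_18.Quart.Sq
import Pool.Agent.KS6_18.Quart.Bin

/-!
Convex bodies whose support function is the fourth root of a quartic form: all plane
projections are linear images of completely symmetric, 1-symmetric sets.
-/

open MeasureTheory Metric Module

namespace Pool.Agent.KS6_18.Quart

section Defs

variable {V : Type*} [NormedAddCommGroup V] [InnerProductSpace ℝ V]

/-- The support function `h_K v = sup {⟪x, v⟫ : x ∈ K}` of `K`. -/
noncomputable def supp (K : Set V) (v : V) : ℝ := sSup ((fun x => inner ℝ x v) '' K)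

/-- A quartic form (homogeneous polynomial of degree four): the diagonal `Q v = M v v v v` of a
function `M` that is linear in each of its four arguments. -/
def IsQuarticForm (Q : V → ℝ) : Prop :=
  ∃ M : V → V → V → V → ℝ,
    (∀ b c d, IsLinearMap ℝ fun a => M a b c d) ∧ (∀ a c d, IsLinearMap ℝ fun b => M a b c d) ∧
    (∀ a b d, IsLinearMap ℝ fun c => M a b c d) ∧ (∀ a b c, IsLinearMap ℝ fun d => M a b c d) ∧
    ∀ v, Q v = M v v v v

/-- The fourth power of the support function of `K` is a quartic form. -/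
def HasQuarticSupport (K : Set V) : Prop := IsQuarticForm fun v => supp K v ^ 4

end Defs

section Supp

variable {V : Type*} [NormedAddCommGroup V] [InnerProductSpace ℝ V]

theorem supp_bdd {K : Set V} (hK : IsCompact K) (v : V) :
    BddAbove ((fun x => inner ℝ x v) '' K) :=
  (hK.image (by fun_prop : Continuous fun x : V => inner ℝ x v)).bddAbove

theorem le_supp {K : Set V} (hK : IsCompact K) {x : V} (hx : x ∈ K) (v : V) :
    inner ℝ x v ≤ supp K v := le_csSup (supp_bdd hK v) ⟨x, hx, rfl⟩

theorem supp_le {K : Set V} (hne : K.Nonempty) (v : V) {c : ℝ}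
    (h : ∀ x ∈ K, inner ℝ x v ≤ c) : supp K v ≤ c := by
  refine csSup_le (hne.image _) ?_
  rintro _ ⟨x, hx, rfl⟩
  exact h x hx

theorem supp_attained {K : Set V} (hK : IsCompact K) (hne : K.Nonempty) (v : V) :
    ∃ x ∈ K, inner ℝ x v = supp K v := by
  obtain ⟨x, hx, hmax⟩ := hK.exists_isMaxOn hne
    (by fun_prop : Continuous fun x : V => inner ℝ x v).continuousOn
  refine ⟨x, hx, le_antisymm (le_supp hK hx v) (supp_le hne v fun y hy => hmax hy)⟩

theorem supp_smul {K : Set V} (hK : IsCompact K) (hne : K.Nonempty) (c : ℝ) (hc : 0 < c)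
    (v : V) : supp K (c • v) = c * supp K v := by
  apply le_antisymm
  · refine supp_le hne _ fun x hx => ?_
    rw [inner_smul_right]
    exact mul_le_mul_of_nonneg_left (le_supp hK hx v) hc.le
  · obtain ⟨x, hx, hxv⟩ := supp_attained hK hne v
    rw [← hxv]
    have := le_supp hK hx (c • v)
    rwa [inner_smul_right] at this

theorem supp_add {K : Set V} (hK : IsCompact K) (hne : K.Nonempty) (v w : V) :
    supp K (v + w) ≤ supp K v + supp K w := by
  refine supp_le hne _ fun x hx => ?_
  rw [inner_add_right]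
  exact add_le_add (le_supp hK hx v) (le_supp hK hx w)

/-- A compact convex set is determined by its support function. -/
theorem eq_wulff_supp [CompleteSpace V] {K : Set V} (hK : IsCompact K) (hc : Convex ℝ K)
    (hne : K.Nonempty) : K = Wulff (supp K) := by
  apply Set.Subset.antisymm
  · intro x hx v
    exact le_supp hK hx v
  · intro y hy
    by_contra hny
    obtain ⟨f, c, hf1, hf2⟩ := geometric_hahn_banach_closed_point hc hK.isClosed hny
    set w : V := (InnerProductSpace.toDual ℝ V).symm f with hw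
    have hfw : ∀ z, f z = inner ℝ z w := by
      intro z
      rw [real_inner_comm, hw, InnerProductSpace.toDual_symm_apply]
    obtain ⟨x, hx, hxw⟩ := supp_attained hK hne w
    have h1 := hf1 x hx
    have h2 := hy w
    rw [hfw] at h1 hf2
    linarith

/-- Bounds for the support function of a body with even fourth power of the support
function. -/
theorem supp_bounds {K : Set V} (hK : IsCompact K) (hint : (interior K).Nonempty)
    (heven : ∀ v, supp K (-v) ^ 4 = supp K v ^ 4) :
    ∃ m M : ℝ, 0 < m ∧ 0 ≤ M ∧ (∀ v, m * ‖v‖ ≤ supp K v) ∧ ∀ v, supp K v ≤ M * ‖v‖ := by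
  obtain ⟨x0, hx0⟩ := hint
  have hne : K.Nonempty := ⟨x0, interior_subset hx0⟩
  obtain ⟨r, hr, hball⟩ : ∃ r > 0, closedBall x0 r ⊆ K := by
    have := mem_interior_iff_mem_nhds.mp hx0
    exact Metric.nhds_basis_closedBall.mem_iff.mp this
  obtain ⟨M, hM0, hM⟩ : ∃ M : ℝ, 0 ≤ M ∧ ∀ x ∈ K, ‖x‖ ≤ M := by
    obtain ⟨M, hM⟩ := hK.isBounded.exists_norm_le
    exact ⟨M, (norm_nonneg x0).trans (hM x0 (interior_subset hx0)), hM⟩
  have hlow : ∀ v, inner ℝ x0 v + r * ‖v‖ ≤ supp K v := by
    intro v
    rcases eq_or_ne v 0 with rfl | hv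
    · have := le_supp hK (interior_subset hx0) (0 : V)
      simpa using this
    · have hvn : 0 < ‖v‖ := norm_pos_iff.mpr hv
      have hmem : x0 + (r * ‖v‖⁻¹) • v ∈ K := by
        apply hball
        rw [mem_closedBall, dist_self_add_left, norm_smul, norm_mul, norm_inv, norm_norm,
          mul_assoc, inv_mul_cancel₀ hvn.ne', mul_one, Real.norm_of_nonneg hr.le]
      have h1 := le_supp hK hmem v
      rw [inner_add_left, real_inner_smul_left, real_inner_self_eq_norm_sq] at h1
      have h2 : r * ‖v‖⁻¹ * ‖v‖ ^ 2 = r * ‖v‖ := by field_simp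
      rw [h2] at h1
      exact h1
  have hev : ∀ v, supp K (-v) = supp K v := by
    intro v
    rcases eq_or_ne v 0 with rfl | hv
    · rw [neg_zero]
    · have hvn : 0 < ‖v‖ := norm_pos_iff.mpr hv
      have h1 := hlow v
      have h2 := hlow (-v)
      rw [inner_neg_right, norm_neg] at h2
      have hsum : 0 < supp K (-v) + supp K v := by nlinarith
      have h4 := heven v
      have h5 : (supp K (-v) - supp K v) * ((supp K (-v) + supp K v) *
          (supp K (-v) ^ 2 + supp K v ^ 2)) = 0 := by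
        linear_combination h4
      rcases mul_eq_zero.mp h5 with h | h
      · linarith
      · exfalso
        rcases mul_eq_zero.mp h with h' | h'
        · exact hsum.ne' h'
        · have e1 : supp K (-v) = 0 := by nlinarith [sq_nonneg (supp K (-v)), sq_nonneg (supp K v)]
          have e2 : supp K v = 0 := by nlinarith [sq_nonneg (supp K (-v)), sq_nonneg (supp K v)]
          rw [e1, e2] at hsum
          norm_num at hsum
  refine ⟨r, M, hr, hM0, fun v => ?_, fun v => ?_⟩
  · have h1 := hlow v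
    have h2 := hlow (-v)
    rw [inner_neg_right, norm_neg, hev] at h2
    linarith
  · refine supp_le hne v fun x hx => ?_
    calc inner ℝ x v ≤ ‖x‖ * ‖v‖ := real_inner_le_norm x v
      _ ≤ M * ‖v‖ := by gcongr; exact hM x hx

end Supp

section Planar

variable {W : Type*} [NormedAddCommGroup W] [InnerProductSpace ℝ W]

/-- The linear map with a given matrix with respect to an orthonormal basis. -/
theorem exists_map (b : OrthonormalBasis (Fin 2) ℝ W) (t11 t12 t21 t22 : ℝ) :
    ∃ D : W →ₗ[ℝ] W, ∀ x y : ℝ, D (x • b 0 + y • b 1) =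
      (t11 * x + t12 * y) • b 0 + (t21 * x + t22 * y) • b 1 := by
  refine ⟨b.toBasis.constr ℝ ![t11 • b 0 + t21 • b 1, t12 • b 0 + t22 • b 1], fun x y => ?_⟩
  have h0 : b.toBasis.constr ℝ ![t11 • b 0 + t21 • b 1, t12 • b 0 + t22 • b 1] (b 0) =
      t11 • b 0 + t21 • b 1 := by
    have := b.toBasis.constr_basis ℝ ![t11 • b 0 + t21 • b 1, t12 • b 0 + t22 • b 1] 0
    rwa [OrthonormalBasis.coe_toBasis] at this
  have h1 : b.toBasis.constr ℝ ![t11 • b 0 + t21 • b 1, t12 • b 0 + t22 • b 1] (b 1) =
      t12 • b 0 + t22 • b 1 := by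
    have := b.toBasis.constr_basis ℝ ![t11 • b 0 + t21 • b 1, t12 • b 0 + t22 • b 1] 1
    rwa [OrthonormalBasis.coe_toBasis] at this
  rw [map_add, map_smul, map_smul, h0, h1]
  module

/-- The planar statement. -/
theorem planar (b : OrthonormalBasis (Fin 2) ℝ W) [FiniteDimensional ℝ W] (h : W → ℝ)
    (m M : ℝ) (hm0 : 0 < m) (hM0 : 0 ≤ M) (hm : ∀ v, m * ‖v‖ ≤ h v) (hM : ∀ v, h v ≤ M * ‖v‖)
    (hq : IsQuarticForm fun v => h v ^ 4) : IsLinearImageOneSymmetricCS (Wulff h) := by
  obtain ⟨Q, l1, l2, l3, l4, hQ⟩ := hq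
  have A1 : ∀ a a' b c d, Q (a + a') b c d = Q a b c d + Q a' b c d :=
    fun a a' b c d => (l1 b c d).map_add a a'
  have A2 : ∀ a b b' c d, Q a (b + b') c d = Q a b c d + Q a b' c d :=
    fun a b b' c d => (l2 a c d).map_add b b'
  have A3 : ∀ a b c c' d, Q a b (c + c') d = Q a b c d + Q a b c' d :=
    fun a b c c' d => (l3 a b d).map_add c c'
  have A4 : ∀ a b c d d', Q a b c (d + d') = Q a b c d + Q a b c d' :=
    fun a b c d d' => (l4 a b c).map_add d d'
  have S1 : ∀ (r : ℝ) a b c d, Q (r • a) b c d = r * Q a b c d :=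
    fun r a b c d => (l1 b c d).map_smul r a
  have S2 : ∀ (r : ℝ) a b c d, Q a (r • b) c d = r * Q a b c d :=
    fun r a b c d => (l2 a c d).map_smul r b
  have S3 : ∀ (r : ℝ) a b c d, Q a b (r • c) d = r * Q a b c d :=
    fun r a b c d => (l3 a b d).map_smul r c
  have S4 : ∀ (r : ℝ) a b c d, Q a b c (r • d) = r * Q a b c d :=
    fun r a b c d => (l4 a b c).map_smul r d
  -- coefficients
  obtain ⟨a0, a1, a2, a3, a4, ha⟩ : ∃ a0 a1 a2 a3 a4 : ℝ, ∀ x y : ℝ,
      h (x • b 0 + y • b 1) ^ 4 = bq a0 a1 a2 a3 a4 x y := by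
    obtain ⟨f, hf⟩ : ∃ f, f = b 0 := ⟨_, rfl⟩
    obtain ⟨g, hg⟩ : ∃ g, g = b 1 := ⟨_, rfl⟩
    refine ⟨Q f f f f, Q f f f g + Q f f g f + Q f g f f + Q g f f f,
      Q f f g g + Q f g f g + Q g f f g + Q f g g f + Q g f g f + Q g g f f,
      Q f g g g + Q g f g g + Q g g f g + Q g g g f, Q g g g g, fun x y => ?_⟩
    have := hQ (x • b 0 + y • b 1)
    simp only at this
    rw [this, ← hf, ← hg]
    simp only [A1, A2, A3, A4, S1, S2, S3, S4]
    unfold bq
    ring
  have hnn : ∀ v, 0 ≤ h v := fun v => (by positivity : 0 ≤ m * ‖v‖).trans (hm v)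
  have hpos : ∀ x y : ℝ, x ^ 2 + y ^ 2 = 1 → 0 < bq a0 a1 a2 a3 a4 x y := by
    intro x y hxy
    rw [← ha]
    have hn : ‖x • b 0 + y • b 1‖ = 1 := by
      have := norm_sq_comb b x y
      rw [hxy] at this
      nlinarith [norm_nonneg (x • b 0 + y • b 1)]
    have h1 := hm (x • b 0 + y • b 1)
    rw [hn, mul_one] at h1
    have : 0 < h (x • b 0 + y • b 1) := hm0.trans_le h1
    positivity
  obtain ⟨t11, t12, t21, t22, A, C, hdet, hT⟩ := bq_canonical a0 a1 a2 a3 a4 hpos
  obtain ⟨d, hd⟩ : ∃ d, d = t11 * t22 - t12 * t21 := ⟨_, rfl⟩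
  rw [← hd] at hdet
  -- the change of variables, its adjoint and the inverses
  obtain ⟨D, hD⟩ := exists_map b t11 t12 t21 t22
  obtain ⟨E, hE⟩ := exists_map b t11 t21 t12 t22
  obtain ⟨D', hD'⟩ := exists_map b (t22 / d) (-t12 / d) (-t21 / d) (t11 / d)
  obtain ⟨E', hE'⟩ := exists_map b (t22 / d) (-t21 / d) (-t12 / d) (t11 / d)
  have hDD' : ∀ v, D (D' v) = v := by
    intro v
    obtain ⟨x, y, rfl⟩ := exists_comb b v
    rw [hD', hD]
    congr 2
    · field_simp
      rw [hd]; ring
    · field_simp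
      rw [hd]; ring
  have hEE' : ∀ v, E (E' v) = v := by
    intro v
    obtain ⟨x, y, rfl⟩ := exists_comb b v
    rw [hE', hE]
    congr 2
    · field_simp
      rw [hd]; ring
    · field_simp
      rw [hd]; ring
  have hE'E : ∀ v, E' (E v) = v := by
    intro v
    obtain ⟨x, y, rfl⟩ := exists_comb b v
    rw [hE, hE']
    congr 2
    · field_simp
      rw [hd]; ring
    · field_simp
      rw [hd]; ring
  have hadj : ∀ x y : W, inner ℝ (E x) y = inner ℝ x (D y) := by
    intro x y
    obtain ⟨p, q, rfl⟩ := exists_comb b x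
    obtain ⟨r, s, rfl⟩ := exists_comb b y
    rw [hD, hE, inner_comb b, inner_comb b]
    ring
  let g : W → ℝ := fun v => h (D v)
  have hg4 : ∀ x y : ℝ, g (x • b 0 + y • b 1) ^ 4 = A * (x ^ 4 + y ^ 4) + C * (x ^ 2 * y ^ 2) := by
    intro x y
    change h (D (x • b 0 + y • b 1)) ^ 4 = _
    rw [hD, ha, hT]
  have hg : ∀ x y : ℝ, g (x • b 0 + y • b 1) =
      (fun X Y : ℝ => (A * X + C * Y) ^ (1 / 4 : ℝ)) (x ^ 4 + y ^ 4) (x ^ 2 * y ^ 2) := by
    intro x y
    have h5 : 0 ≤ g (x • b 0 + y • b 1) := hnn _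
    simp only
    rw [← hg4 x y, ← Real.rpow_natCast, ← Real.rpow_mul h5,
      show ((4 : ℕ) : ℝ) * (1 / 4) = 1 from by norm_num, Real.rpow_one]
  have hbodyW : IsConvexBody (Wulff h) := wulff_convexBody h m M hm0 hM0 hm hM
  let T : W ≃ₗ[ℝ] W := LinearEquiv.ofLinearMap E' E (by ext v; exact hE'E v) (by ext v; exact hEE' v)
  have hT1 : ∀ v, T v = E' v := fun v => rfl
  have hT2 : ∀ v, T.symm v = E v := fun v => rfl
  have himg : Wulff h = T '' Wulff g := by
    ext z
    constructor
    · intro hz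
      refine ⟨E z, fun y => ?_, hE'E z⟩
      rw [hadj]
      exact hz (D y)
    · rintro ⟨w, hw, rfl⟩ y
      have h1 := hw (D' y)
      have h2 : g (D' y) = h y := by
        change h (D (D' y)) = _
        rw [hDD']
      rw [h2] at h1
      have h3 : inner ℝ (E' w) y = inner ℝ w (D' y) := by
        have := hadj (E' w) (D' y)
        rw [hEE', hDD'] at this
        exact this.symm
      change inner ℝ (E' w) y ≤ h y
      rw [h3]
      exact h1
  have hbody : IsConvexBody (Wulff g) := by
    have h1 : Wulff g = T.symm '' Wulff h := by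
      rw [himg, ← Set.image_comp]
      have : (T.symm ∘ T : W → W) = id := by
        funext x; simp
      rw [this, Set.image_id]
    rw [h1]
    exact convexBody_image T.symm _ hbodyW
  obtain ⟨R, hR⟩ := exists_isRot b 0 1 (by norm_num) one_ne_zero
  have hgR : ∀ y, g (R y) = g y := by
    intro y
    obtain ⟨p, q, rfl⟩ := exists_comb b y
    have hRy : R (p • b 0 + q • b 1) = (-q) • b 0 + p • b 1 := by
      rw [map_add, map_smul, map_smul, hR.r0, hR.r1]
      module
    rw [hRy, hg, hg]
    congr 1 <;> ring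
  refine ⟨Wulff g, T, ?_, ⟨2, b, fun S hS => ?_⟩, himg⟩
  · exact hR.completelySymmetric (Wulff g) hbody (wulff_image_isometry g R hgR)
  · exact invariant_of_sym_square b g (fun X Y : ℝ => (A * X + C * Y) ^ (1 / 4 : ℝ)) hg S hS

end Planar

section Three

variable {V : Type*} [NormedAddCommGroup V] [InnerProductSpace ℝ V] [FiniteDimensional ℝ V]

/-- Every projection onto a plane of a convex body whose support function is the fourth root of
a quartic form is a linear image of a set which is completely symmetric and 1-symmetric. -/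
theorem projection (K : Set V) (hK : IsConvexBody K) (hq : HasQuarticSupport K)
    (W : Submodule ℝ V) (hW : finrank ℝ W = 2) :
    IsLinearImageOneSymmetricCS (W.orthogonalProjectionOnto '' K) := by
  obtain ⟨hcomp, hconv, hint⟩ := hK
  have hne : K.Nonempty := hint.mono interior_subset
  obtain ⟨Q, l1, l2, l3, l4, hQ⟩ := hq
  obtain ⟨m, M, hm0, hM0, hm, hM⟩ := supp_bounds hcomp hint (by
    intro v
    have h1 := hQ v
    have h2 := hQ (-v)
    simp only at h1 h2
    have n1 : ∀ a b c d, Q (-a) b c d = -Q a b c d := fun a b c d => (l1 b c d).map_neg a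
    have n2 : ∀ a b c d, Q a (-b) c d = -Q a b c d := fun a b c d => (l2 a c d).map_neg b
    have n3 : ∀ a b c d, Q a b (-c) d = -Q a b c d := fun a b c d => (l3 a b d).map_neg c
    have n4 : ∀ a b c d, Q a b c (-d) = -Q a b c d := fun a b c d => (l4 a b c).map_neg d
    rw [h1, h2, n1, n2, n3, n4]
    ring)
  have hKW := eq_wulff_supp hcomp hconv hne
  have hproj : W.orthogonalProjectionOnto '' K = Wulff (fun y : W => supp K (y : V)) := by
    conv_lhs => rw [hKW]
    exact proj_wulff (supp K) (fun c hc x => supp_smul hcomp hne c hc x)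
      (supp_add hcomp hne) W
  rw [hproj]
  let b : OrthonormalBasis (Fin 2) ℝ W := (stdOrthonormalBasis ℝ W).reindex (finCongr hW)
  refine planar b _ m M hm0 hM0 (fun v => hm v) (fun v => hM v) ?_
  refine ⟨fun x y z w => Q (x : V) (y : V) (z : V) (w : V), fun y z w => ?_, fun x z w => ?_,
    fun x y w => ?_, fun x y z => ?_, fun v => hQ (v : V)⟩
  · exact ⟨fun p q => (l1 y z w).map_add p q, fun r p => (l1 y z w).map_smul r p⟩
  · exact ⟨fun p q => (l2 x z w).map_add p q, fun r p => (l2 x z w).map_smul r p⟩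
  · exact ⟨fun p q => (l3 x y w).map_add p q, fun r p => (l3 x y w).map_smul r p⟩
  · exact ⟨fun p q => (l4 x y z).map_add p q, fun r p => (l4 x y z).map_smul r p⟩

end Three

end Pool.Agent.KS6_18.Quart
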