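import Mathlib
import Pool.Agent.KS6_18.Quart.Main

/-!
Linear images of the unit ball of `ℓ_{4/3}^N` have a support function whose fourth power is a
quartic form.  The unit ball of `ℓ_{4/3}^3` is not an ellipsoid.
-/

open MeasureTheory Metric Module

namespace Pool.Agent.KS6_18.Quart

section Defs

variable {V : Type*} [NormedAddCommGroup V] [InnerProductSpace ℝ V]

/-- The set of all `∑ t j • a j` with `∑ |t j| ^ (4/3) ≤ 1`: the image of the unit ball of
`ℓ_{4/3}^N` under the linear map sending the standard basis vectors to the vectors `a j`. -/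
def lpImage {N : ℕ} (a : Fin N → V) : Set V :=
  {x | ∃ t : Fin N → ℝ, ∑ j, |t j| ^ (4 / 3 : ℝ) ≤ 1 ∧ x = ∑ j, t j • a j}

end Defs

/-- The unit ball of `ℓ_{4/3}^N` in coordinates. -/
def lpB (N : ℕ) : Set (Fin N → ℝ) := {t | ∑ j, |t j| ^ (4 / 3 : ℝ) ≤ 1}

theorem lpB_compact (N : ℕ) : IsCompact (lpB N) := by
  refine (isCompact_closedBall (0 : Fin N → ℝ) 1).of_isClosed_subset ?_ ?_
  · refine isClosed_le (continuous_finsetSum _ fun j _ => ?_) continuous_const
    exact ((continuous_apply j).abs).rpow_const fun _ => Or.inr (by norm_num)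
  · intro t ht
    rw [mem_closedBall_zero_iff, pi_norm_le_iff_of_nonneg zero_le_one]
    intro j
    rw [Real.norm_eq_abs]
    by_contra hlt
    push Not at hlt
    have h1 : 1 < |t j| ^ (4 / 3 : ℝ) := Real.one_lt_rpow hlt (by norm_num)
    have h2 : |t j| ^ (4 / 3 : ℝ) ≤ ∑ j, |t j| ^ (4 / 3 : ℝ) :=
      Finset.single_le_sum (f := fun j => |t j| ^ (4 / 3 : ℝ))
        (fun i _ => Real.rpow_nonneg (abs_nonneg _) _) (Finset.mem_univ j)
    have h3 : ∑ j, |t j| ^ (4 / 3 : ℝ) ≤ 1 := ht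
    linarith

theorem lpB_convex (N : ℕ) : Convex ℝ (lpB N) := by
  intro t ht s hs a b ha hb hab
  have ht' : ∑ j, |t j| ^ (4 / 3 : ℝ) ≤ 1 := ht
  have hs' : ∑ j, |s j| ^ (4 / 3 : ℝ) ≤ 1 := hs
  change ∑ j, |(a • t + b • s) j| ^ (4 / 3 : ℝ) ≤ 1
  have hterm : ∀ j, |(a • t + b • s) j| ^ (4 / 3 : ℝ) ≤
      a * |t j| ^ (4 / 3 : ℝ) + b * |s j| ^ (4 / 3 : ℝ) := by
    intro j
    have h1 : |(a • t + b • s) j| ≤ a * |t j| + b * |s j| := by
      simp only [Pi.add_apply, Pi.smul_apply, smul_eq_mul]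
      calc |a * t j + b * s j| ≤ |a * t j| + |b * s j| := abs_add_le _ _
        _ = a * |t j| + b * |s j| := by rw [abs_mul, abs_mul, abs_of_nonneg ha, abs_of_nonneg hb]
    have h2 := (convexOn_rpow (p := (4 / 3 : ℝ)) (by norm_num)).2
      (abs_nonneg (t j)) (abs_nonneg (s j)) ha hb hab
    simp only [smul_eq_mul] at h2
    exact (Real.rpow_le_rpow (abs_nonneg _) h1 (by norm_num)).trans h2
  calc ∑ j, |(a • t + b • s) j| ^ (4 / 3 : ℝ) ≤
      ∑ j, (a * |t j| ^ (4 / 3 : ℝ) + b * |s j| ^ (4 / 3 : ℝ)) :=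
        Finset.sum_le_sum fun j _ => hterm j
    _ = a * ∑ j, |t j| ^ (4 / 3 : ℝ) + b * ∑ j, |s j| ^ (4 / 3 : ℝ) := by
        rw [Finset.sum_add_distrib, Finset.mul_sum, Finset.mul_sum]
    _ ≤ a * 1 + b * 1 := by gcongr
    _ = 1 := by rw [mul_one, mul_one, hab]

section Gen

variable {V : Type*} [NormedAddCommGroup V] [InnerProductSpace ℝ V] [FiniteDimensional ℝ V]

/-- The linear map. -/
noncomputable def lmap {N : ℕ} (a : Fin N → V) : (Fin N → ℝ) →ₗ[ℝ] V :=
  Fintype.linearCombination ℝ a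

theorem lmap_apply {N : ℕ} (a : Fin N → V) (t : Fin N → ℝ) : lmap a t = ∑ j, t j • a j := rfl

theorem lpImage_eq {N : ℕ} (a : Fin N → V) : lpImage a = lmap a '' lpB N := by
  ext x
  constructor
  · rintro ⟨t, ht, rfl⟩
    exact ⟨t, ht, rfl⟩
  · rintro ⟨t, ht, rfl⟩
    exact ⟨t, ht, rfl⟩

theorem lpImage_body {N : ℕ} (a : Fin N → V) (ha : Submodule.span ℝ (Set.range a) = ⊤) :
    IsConvexBody (lpImage a) := by
  rw [lpImage_eq]
  have hcont : Continuous (lmap a) := (lmap a).continuous_of_finiteDimensional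
  refine ⟨(lpB_compact N).image hcont, (lpB_convex N).linear_image (lmap a), ?_⟩
  have hsurj : Function.Surjective (lmap a) := by
    rw [← LinearMap.range_eq_top, lmap, Fintype.range_linearCombination, ha]
  have hopen : IsOpenMap (lmap a) := (lmap a).isOpenMap_of_finiteDimensional hsurj
  have hU : IsOpen {t : Fin N → ℝ | ∑ j, |t j| ^ (4 / 3 : ℝ) < 1} := by
    refine isOpen_lt (continuous_finsetSum _ fun j _ => ?_) continuous_const
    exact ((continuous_apply j).abs).rpow_const fun _ => Or.inr (by norm_num)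
  have h0 : (0 : Fin N → ℝ) ∈ {t : Fin N → ℝ | ∑ j, |t j| ^ (4 / 3 : ℝ) < 1} := by
    simp only [Set.mem_ofPred_eq, Pi.zero_apply, abs_zero]
    rw [Real.zero_rpow (by norm_num)]
    simp
  refine ⟨lmap a 0, ?_⟩
  rw [mem_interior]
  refine ⟨_, Set.image_mono fun t ht => ?_, hopen _ hU, ⟨0, h0, rfl⟩⟩
  have ht' : ∑ j, |t j| ^ (4 / 3 : ℝ) < 1 := ht
  exact ht'.le

theorem abs_rpow_four (r : ℝ) : |r| ^ (4 : ℝ) = r ^ 4 := by
  have h4 : (4 : ℝ) = ((4 : ℕ) : ℝ) := by norm_num
  rw [h4, Real.rpow_natCast, Even.pow_abs (by decide)]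

theorem supp_lpImage {N : ℕ} (a : Fin N → V) (v : V) :
    supp (lpImage a) v ^ 4 = ∑ j, inner ℝ (a j) v ^ 4 := by
  obtain ⟨S, hS⟩ : ∃ S, S = ∑ j, inner ℝ (a j) v ^ 4 := ⟨_, rfl⟩
  have hS0 : 0 ≤ S := by rw [hS]; exact Finset.sum_nonneg fun j _ => by positivity
  obtain ⟨n, hn⟩ : ∃ n : ℝ, n = S ^ (1 / 4 : ℝ) := ⟨_, rfl⟩
  have hn0 : 0 ≤ n := by rw [hn]; exact Real.rpow_nonneg hS0 _
  have hn4 : n ^ 4 = S := by
    rw [hn, ← Real.rpow_natCast, ← Real.rpow_mul hS0]
    norm_num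
  have hinner : ∀ t : Fin N → ℝ, inner ℝ (∑ j, t j • a j) v = ∑ j, t j * inner ℝ (a j) v := by
    intro t
    rw [sum_inner]
    exact Finset.sum_congr rfl fun j _ => real_inner_smul_left _ _ _
  have hcomp : IsCompact (lpImage a) := by
    rw [lpImage_eq]
    exact (lpB_compact N).image (lmap a).continuous_of_finiteDimensional
  have hne : (lpImage a).Nonempty := by
    refine ⟨0, 0, ?_, by simp⟩
    simp only [Pi.zero_apply, abs_zero]
    rw [Real.zero_rpow (by norm_num)]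
    simp
  have hle : supp (lpImage a) v ≤ n := by
    refine supp_le hne v ?_
    rintro x ⟨t, ht, rfl⟩
    rw [hinner]
    have h1 := Real.inner_le_Lp_mul_Lq (Finset.univ : Finset (Fin N)) t
      (fun j => inner ℝ (a j) v) (p := 4 / 3) (q := 4)
      (by constructor <;> norm_num)
    have h2 : ∑ j, |inner ℝ (a j) v| ^ (4 : ℝ) = S := by
      rw [hS]
      exact Finset.sum_congr rfl fun j _ => abs_rpow_four _
    rw [h2, ← hn] at h1
    have h3 : (∑ j, |t j| ^ (4 / 3 : ℝ)) ^ (1 / (4 / 3) : ℝ) ≤ 1 := by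
      apply Real.rpow_le_one (Finset.sum_nonneg fun j _ => Real.rpow_nonneg (abs_nonneg _) _) ht
      norm_num
    calc ∑ j, t j * inner ℝ (a j) v ≤ _ := h1
      _ ≤ 1 * n := by gcongr
      _ = n := one_mul n
  have hge : n ≤ supp (lpImage a) v := by
    rcases hn0.eq_or_lt with h0 | hpos
    · rw [← h0]
      have h1 : (0 : V) ∈ lpImage a := by
        refine ⟨0, ?_, by simp⟩
        simp only [Pi.zero_apply, abs_zero]
        rw [Real.zero_rpow (by norm_num)]
        simp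
      have := le_supp hcomp h1 v
      rwa [inner_zero_left] at this
    · have hmem : (∑ j, (inner ℝ (a j) v ^ 3 / n ^ 3) • a j) ∈ lpImage a := by
        refine ⟨fun j => inner ℝ (a j) v ^ 3 / n ^ 3, ?_, rfl⟩
        have h1 : ∀ j, |inner ℝ (a j) v ^ 3 / n ^ 3| ^ (4 / 3 : ℝ) =
            inner ℝ (a j) v ^ 4 / n ^ 4 := by
          intro j
          rw [← div_pow, abs_pow, ← Real.rpow_natCast, ← Real.rpow_mul (abs_nonneg _),
            show ((3 : ℕ) : ℝ) * (4 / 3) = 4 from by norm_num, abs_rpow_four, div_pow]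
        rw [Finset.sum_congr rfl fun j _ => h1 j, ← Finset.sum_div, ← hS, hn4, div_self]
        rw [← hn4]; positivity
      have h2 := le_supp hcomp hmem v
      rw [hinner] at h2
      have h3 : ∑ j, inner ℝ (a j) v ^ 3 / n ^ 3 * inner ℝ (a j) v = n := by
        have h4 : ∀ j, inner ℝ (a j) v ^ 3 / n ^ 3 * inner ℝ (a j) v =
            inner ℝ (a j) v ^ 4 / n ^ 3 := by
          intro j; ring
        rw [Finset.sum_congr rfl fun j _ => h4 j, ← Finset.sum_div, ← hS, ← hn4]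
        field_simp
      rwa [h3] at h2
  rw [le_antisymm hle hge, hn4, hS]

theorem lpImage_quartic {N : ℕ} (a : Fin N → V) : HasQuarticSupport (lpImage a) := by
  refine ⟨fun x y z w => ∑ j, inner ℝ (a j) x * inner ℝ (a j) y * inner ℝ (a j) z *
    inner ℝ (a j) w, fun y z w => ⟨fun p q => ?_, fun r p => ?_⟩,
    fun x z w => ⟨fun p q => ?_, fun r p => ?_⟩, fun x y w => ⟨fun p q => ?_, fun r p => ?_⟩,
    fun x y z => ⟨fun p q => ?_, fun r p => ?_⟩, fun v => ?_⟩
  · rw [← Finset.sum_add_distrib]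
    exact Finset.sum_congr rfl fun j _ => by rw [inner_add_right]; ring
  · rw [smul_eq_mul, Finset.mul_sum]
    exact Finset.sum_congr rfl fun j _ => by rw [inner_smul_right]; ring
  · rw [← Finset.sum_add_distrib]
    exact Finset.sum_congr rfl fun j _ => by rw [inner_add_right]; ring
  · rw [smul_eq_mul, Finset.mul_sum]
    exact Finset.sum_congr rfl fun j _ => by rw [inner_smul_right]; ring
  · rw [← Finset.sum_add_distrib]
    exact Finset.sum_congr rfl fun j _ => by rw [inner_add_right]; ring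
  · rw [smul_eq_mul, Finset.mul_sum]
    exact Finset.sum_congr rfl fun j _ => by rw [inner_smul_right]; ring
  · rw [← Finset.sum_add_distrib]
    exact Finset.sum_congr rfl fun j _ => by rw [inner_add_right]; ring
  · rw [smul_eq_mul, Finset.mul_sum]
    exact Finset.sum_congr rfl fun j _ => by rw [inner_smul_right]; ring
  · simp only
    rw [supp_lpImage]
    exact Finset.sum_congr rfl fun j _ => by ring

/-- The squared support function of an ellipsoid with even support function satisfies the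
parallelogram law. -/
theorem ellipsoid_parallelogram {K : Set V} (hK : IsEllipsoid K)
    (heven : ∀ v, supp K (-v) = supp K v) (x y : V) :
    supp K (x + y) ^ 2 + supp K (x - y) ^ 2 = 2 * (supp K x ^ 2 + supp K y ^ 2) := by
  obtain ⟨T, hK⟩ := hK
  let L : V →ₗ[ℝ] V := (T.linear : V →ₗ[ℝ] V)
  have hT : ∀ x, T x = L x + T 0 := by
    intro x
    have := T.map_vadd 0 x
    simpa [L] using this
  have hcomp : IsCompact K := by
    rw [hK]
    exact (isCompact_closedBall (0 : V) 1).image T.continuous_of_finiteDimensional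
  have hne : K.Nonempty := by
    rw [hK]; exact ⟨T 0, 0, by simp, rfl⟩
  have hle : ∀ x, supp K x ≤ inner ℝ (T 0) x + ‖LinearMap.adjoint L x‖ := by
    intro x
    refine supp_le hne x fun z hz => ?_
    have hz' : z ∈ T '' closedBall (0 : V) 1 := by rw [← hK]; exact hz
    obtain ⟨y, hy, rfl⟩ := hz'
    rw [mem_closedBall_zero_iff] at hy
    rw [hT, inner_add_left, ← LinearMap.adjoint_inner_right]
    have h2 : inner ℝ y (LinearMap.adjoint L x) ≤ ‖y‖ * ‖LinearMap.adjoint L x‖ :=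
      real_inner_le_norm _ _
    have h3 : ‖y‖ * ‖LinearMap.adjoint L x‖ ≤ 1 * ‖LinearMap.adjoint L x‖ := by gcongr
    linarith
  have hge : ∀ x, inner ℝ (T 0) x + ‖LinearMap.adjoint L x‖ ≤ supp K x := by
    intro x
    by_cases hx : LinearMap.adjoint L x = 0
    · rw [hx, norm_zero, add_zero]
      have hz : T 0 ∈ K := by rw [hK]; exact ⟨0, by simp, rfl⟩
      exact le_supp hcomp hz x
    · have hn : 0 < ‖LinearMap.adjoint L x‖ := norm_pos_iff.mpr hx
      have hz : T ((‖LinearMap.adjoint L x‖)⁻¹ • LinearMap.adjoint L x) ∈ K := by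
        rw [hK]
        refine ⟨_, ?_, rfl⟩
        rw [mem_closedBall_zero_iff, norm_smul, norm_inv, norm_norm, inv_mul_cancel₀ hn.ne']
      have h1 := le_supp hcomp hz x
      rw [hT, inner_add_left, ← LinearMap.adjoint_inner_right, real_inner_smul_left,
        real_inner_self_eq_norm_sq] at h1
      have h2 : (‖LinearMap.adjoint L x‖)⁻¹ * ‖LinearMap.adjoint L x‖ ^ 2 =
          ‖LinearMap.adjoint L x‖ := by field_simp
      rw [h2] at h1
      linarith
  have heq : ∀ x, supp K x = inner ℝ (T 0) x + ‖LinearMap.adjoint L x‖ :=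
    fun x => le_antisymm (hle x) (hge x)
  have heven' : ∀ x, supp K x = ‖LinearMap.adjoint L x‖ := by
    intro x
    have h1 := heq x
    have h2 := heq (-x)
    rw [heven, inner_neg_right, map_neg, norm_neg] at h2
    linarith
  rw [heven', heven', heven', heven', map_add, map_sub]
  have := parallelogram_law_with_norm ℝ (LinearMap.adjoint L x) (LinearMap.adjoint L y)
  nlinarith

end Gen

/-- The unit ball of `ℓ_{4/3}^3`. -/
def ball43 : Set (EuclideanSpace ℝ (Fin 3)) :=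
  {x | |x 0| ^ (4 / 3 : ℝ) + |x 1| ^ (4 / 3 : ℝ) + |x 2| ^ (4 / 3 : ℝ) ≤ 1}

/-- The standard basis. -/
noncomputable def stdv (i : Fin 3) : EuclideanSpace ℝ (Fin 3) := EuclideanSpace.single i 1

theorem ball43_eq : ball43 = lpImage stdv := by
  have hsum : ∀ t : Fin 3 → ℝ, ∀ i, (∑ j, t j • stdv j) i = t i := by
    intro t i
    simp [stdv, Fin.sum_univ_three]
    fin_cases i <;> simp
  ext x
  constructor
  · intro hx
    refine ⟨fun j => x j, ?_, ?_⟩
    · rw [Fin.sum_univ_three]; exact hx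
    · ext i
      rw [hsum]
  · rintro ⟨t, ht, rfl⟩
    rw [Fin.sum_univ_three] at ht
    change |(∑ j, t j • stdv j) 0| ^ (4 / 3 : ℝ) + |(∑ j, t j • stdv j) 1| ^ (4 / 3 : ℝ) +
      |(∑ j, t j • stdv j) 2| ^ (4 / 3 : ℝ) ≤ 1
    rw [hsum, hsum, hsum]
    exact ht

theorem stdv_span : Submodule.span ℝ (Set.range stdv) = ⊤ := by
  have := (EuclideanSpace.basisFun (Fin 3) ℝ).toBasis.span_eq
  rw [← this]
  congr 2
  ext i
  simp [stdv]

theorem ball43_body : IsConvexBody ball43 := by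
  rw [ball43_eq]; exact lpImage_body stdv stdv_span

theorem ball43_supp (v : EuclideanSpace ℝ (Fin 3)) :
    supp ball43 v ^ 4 = v 0 ^ 4 + v 1 ^ 4 + v 2 ^ 4 := by
  rw [ball43_eq, supp_lpImage, Fin.sum_univ_three]
  simp [stdv, EuclideanSpace.inner_single_left]

theorem ball43_not_ellipsoid : ¬ IsEllipsoid ball43 := by
  intro hE
  have hcomp := ball43_body.1
  have h0mem : (0 : EuclideanSpace ℝ (Fin 3)) ∈ ball43 := by
    change |(0 : EuclideanSpace ℝ (Fin 3)) 0| ^ (4 / 3 : ℝ) +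
      |(0 : EuclideanSpace ℝ (Fin 3)) 1| ^ (4 / 3 : ℝ) +
      |(0 : EuclideanSpace ℝ (Fin 3)) 2| ^ (4 / 3 : ℝ) ≤ 1
    simp only [PiLp.zero_apply, abs_zero]
    rw [Real.zero_rpow (by norm_num)]
    norm_num
  have hnn : ∀ v, 0 ≤ supp ball43 v := by
    intro v
    have := le_supp hcomp h0mem v
    rwa [inner_zero_left] at this
  have heven : ∀ v, supp ball43 (-v) = supp ball43 v := by
    intro v
    have h1 : supp ball43 (-v) ^ 4 = supp ball43 v ^ 4 := by
      rw [ball43_supp, ball43_supp]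
      simp only [PiLp.neg_apply]
      ring
    exact (pow_left_inj₀ (hnn _) (hnn _) (by norm_num)).mp h1
  have h := ellipsoid_parallelogram hE heven (stdv 0) (stdv 1)
  have q1 : supp ball43 (stdv 0) ^ 4 = 1 := by
    rw [ball43_supp]; simp [stdv]
  have q2 : supp ball43 (stdv 1) ^ 4 = 1 := by
    rw [ball43_supp]; simp [stdv]
  have q3 : supp ball43 (stdv 0 + stdv 1) ^ 4 = 2 := by
    rw [ball43_supp]; simp [stdv]; norm_num
  have q4 : supp ball43 (stdv 0 - stdv 1) ^ 4 = 2 := by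
    rw [ball43_supp]; simp [stdv]; norm_num
  obtain ⟨A, hA⟩ : ∃ A, A = supp ball43 (stdv 0 + stdv 1) ^ 2 := ⟨_, rfl⟩
  obtain ⟨B, hB⟩ : ∃ B, B = supp ball43 (stdv 0 - stdv 1) ^ 2 := ⟨_, rfl⟩
  obtain ⟨C, hC⟩ : ∃ C, C = supp ball43 (stdv 0) ^ 2 := ⟨_, rfl⟩
  obtain ⟨D, hD⟩ : ∃ D, D = supp ball43 (stdv 1) ^ 2 := ⟨_, rfl⟩
  have a1 : A ^ 2 = 2 := by rw [hA, ← q3]; ring
  have a2 : B ^ 2 = 2 := by rw [hB, ← q4]; ring
  have a3 : C ^ 2 = 1 := by rw [hC, ← q1]; ring
  have a4 : D ^ 2 = 1 := by rw [hD, ← q2]; ring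
  have nA : 0 ≤ A := by rw [hA]; positivity
  have nB : 0 ≤ B := by rw [hB]; positivity
  have nC : 0 ≤ C := by rw [hC]; positivity
  have nD : 0 ≤ D := by rw [hD]; positivity
  rw [← hA, ← hB, ← hC, ← hD] at h
  have c1 : C = 1 := by nlinarith
  have d1 : D = 1 := by nlinarith
  rw [c1, d1] at h
  have h16 : (A + B) ^ 2 = 16 := by rw [h]; norm_num
  nlinarith [sq_nonneg (A - B)]

end Pool.Agent.KS6_18.Quart
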